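import Pool.Agent.MP_3ee8cb_gt.SL3.LinkZ
import Pool.Agent.MP_3ee8cb_gt.CZ.All

namespace Pool.Agent.Results.MP_3ee8cb_gt.Dim3Rigid

open Pool.Agent.MP_3ee8cb_gt Pool.Agent.MP_3ee8cb_gt.SL Pool.Agent.MP_3ee8cb_gt.SL3

theorem result (g h : Met 3) (Γ Λ : Type) [Group Γ] [Group Λ] [MulAction Γ (E 3)]
    [MulAction Λ (E 3)] (Φ : ℝ → UT g → UT g) (Ψ : ℝ → UT h → UT h) (f : UM g Γ ≃ₜ UM h Λ)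
    (hg : Riem g) (hh : Riem h) (dΓ : Deck g Γ) (dΛ : Deck h Λ) (sΓ : Smooth g Γ)
    (sΛ : Smooth h Λ) (hΦ : IsFlow g Φ) (hΨ : IsFlow h Ψ) (hf : Conj Φ Ψ f)
    (hN : Negative h) : Isometric g h Γ Λ :=
  finZ D3.sJAC CZ.frm D3.sACT CZ.allZ g h Γ Λ Φ Ψ f hg hh dΓ dΛ sΓ sΛ hΦ hΨ hf hN

end Pool.Agent.Results.MP_3ee8cb_gt.Dim3Rigid
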