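import Pool.Agent.MP_3ee8cb_gt.SLG.Fin

/-! A negatively curved closed manifold is determined by its geodesic flow among all manifolds
that are close to it in the equivariant Gromov-Hausdorff sense. -/

namespace Pool.Agent.Results.MP_3ee8cb_gt.LocalGH

open Pool.Agent.MP_3ee8cb_gt Pool.Agent.MP_3ee8cb_gt.SL Pool.Agent.MP_3ee8cb_gt.SLG

theorem result (n : ℕ) (hn : 3 ≤ n) (k : ℝ) : ∃ e : ℝ, 0 < e ∧ ∀ (g h : Met n) (Γ Λ : Type)
    [Group Γ] [Group Λ] [MulAction Γ (E n)] [MulAction Λ (E n)] (Φ : ℝ → UT g → UT g)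
    (Ψ : ℝ → UT h → UT h) (f : UM g Γ ≃ₜ UM h Λ) (ρ : Γ ≃* Λ) (φ : E n → E n) (a : ℝ),
    Riem g → Riem h → Deck g Γ → Deck h Λ → Act2 n Γ → Act2 n Λ → IsFlow g Φ → IsFlow h Ψ →
    Conj Φ Ψ f → Induces f ρ → 0 < a → Band h a k → Equi ρ φ → Rough g h φ a e →
    IsoVia g h ρ :=
  allG n hn k

end Pool.Agent.Results.MP_3ee8cb_gt.LocalGH
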