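import Pool.Agent.MP_3ee8cb_gt.CY.All
import Pool.Agent.MP_3ee8cb_gt.D8.All
import Pool.Agent.MP_3ee8cb_gt.SLN.Q

/-! A pinched negatively curved closed manifold is determined by its geodesic flow. -/

namespace Pool.Agent.Results.MP_3ee8cb_gt.PinchedAllDim

open Pool.Agent.MP_3ee8cb_gt Pool.Agent.MP_3ee8cb_gt.SL Pool.Agent.MP_3ee8cb_gt.SL3

theorem result : ∃ k₀ : ℝ, 1 < k₀ ∧ ∀ (n : ℕ) (_ : 3 ≤ n) (g h : Met n) (Γ Λ : Type) [Group Γ]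
    [Group Λ] [MulAction Γ (E n)] [MulAction Λ (E n)] (Φ : ℝ → UT g → UT g)
    (Ψ : ℝ → UT h → UT h) (f : UM g Γ ≃ₜ UM h Λ), Riem g → Riem h → Deck g Γ → Deck h Λ →
    Smooth g Γ → Smooth h Λ → IsFlow g Φ → IsFlow h Ψ → Conj Φ Ψ f →
    Pinched h (max k₀ ((1 + if n = 8 then 1001 / 1000 else
      max (36 / (5 * (n : ℝ))) (129 / (100 * √(n : ℝ)))) ^ 2)) →
    Isometric g h Γ Λ :=
  (CY.max_of (k := fun n => (1 + if n = 8 then 1001 / 1000 else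
      max (36 / (5 * (n : ℝ))) (129 / (100 * √(n : ℝ)))) ^ 2) D8.main CY.uni).imp fun k₀ A =>
    ⟨A.1, SLN.allK (fun n => max k₀ ((1 + if n = 8 then 1001 / 1000 else
      max (36 / (5 * (n : ℝ))) (129 / (100 * √(n : ℝ)))) ^ 2)) A.2⟩

end Pool.Agent.Results.MP_3ee8cb_gt.PinchedAllDim
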